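import Pool.Agent.W345.GK.Cl2

/-! GK-DER: the derivation of the cyclotomic field. -/

set_option autoImplicit false

open Polynomial Finset
open Pool.Agent.W345.GK

namespace Pool.Agent.W683.GK

/-! ### derivations -/

section
variable {M : Type} [Field M] (d : M → M) (hadd : ∀ x y, d (x + y) = d x + d y)
  (hmul : ∀ x y, d (x * y) = x * d y + y * d x)
include hadd

theorem d_zero : d 0 = 0 := by
  have h := hadd 0 0
  rw [add_zero] at h
  have h2 : d 0 + 0 = d 0 + d 0 := by
    rw [add_zero]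
    exact h
  exact (add_left_cancel h2).symm

/-- the additive map -/
noncomputable def dh : M →+ M where
  toFun := d
  map_zero' := d_zero d hadd
  map_add' := hadd

omit hadd
include hmul

theorem d_one : d 1 = 0 := by
  have h := hmul 1 1
  rw [mul_one, one_mul] at h
  have h2 : d 1 + 0 = d 1 + d 1 := by
    rw [add_zero]
    exact h
  exact (add_left_cancel h2).symm

theorem d_pow (x : M) (n : ℕ) : d (x ^ n) = (n : M) * x ^ (n - 1) * d x := by
  induction n with
  | zero => simp [d_one d hmul]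
  | succ n ih =>
    rw [pow_succ, hmul, ih]
    rcases n with _ | n
    · simp
    · simp only [Nat.add_sub_cancel]
      push_cast
      ring

end

section
variable {k F Fc : Type} [Field k] [Fintype k] [Field F] [Algebra k F] [Field Fc]
  [Algebra k[X] Fc] {P : k[X]} (c : CycD k Fc P)

omit [Fintype k] in
/-- polynomial induction -/
theorem pol_ind (l : Fc) (T : Fc → Prop) (hA : ∀ a : k[X], T (algebraMap k[X] Fc a)) (hl : T l)
    (hadd : ∀ x y, T x → T y → T (x + y)) (hmul : ∀ x y, T x → T y → T (x * y))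
    (f : (k[X])[X]) : T (aeval l f) := by
  have hpow : ∀ n : ℕ, T (l ^ n) := by
    intro n
    induction n with
    | zero =>
      have := hA 1
      rw [map_one] at this
      rw [pow_zero]
      exact this
    | succ n ih =>
      rw [pow_succ]
      exact hmul _ _ ih hl
  induction f using Polynomial.induction_on' with
  | add f g hf hg =>
    rw [map_add]
    exact hadd _ _ hf hg
  | monomial n a =>
    rw [aeval_monomial]
    exact hmul _ _ (hA a) (hpow n)

/-- induction principle -/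
theorem gen_ind (T : Fc → Prop) (hA : ∀ a : k[X], T (algebraMap k[X] Fc a)) (hl : T (c.lam 1))
    (hadd : ∀ x y, T x → T y → T (x + y)) (hmul : ∀ x y, T x → T y → T (x * y))
    (hdiv : ∀ (b : k[X]) (y : Fc), b ≠ 0 → T (algebraMap k[X] Fc b * y) → T y) (y : Fc) : T y := by
  obtain ⟨b, f, hb, hf⟩ := c.gen y
  apply hdiv b y hb
  rw [hf]
  exact pol_ind (c.lam 1) T hA hl hadd hmul f

/-- the polynomial of the derivatives of the coefficients -/
noncomputable def wp (P : k[X]) : (k[X])[X] :=
  ∑ i ∈ range (P.natDegree + 1), C (derivative (br P i)) * X ^ (Fintype.card k ^ i)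

theorem card_LS (k F : Type) [Field k] [Fintype k] [Field F] [Algebra k F] :
    ((Fintype.card k : ℕ) : LS F) = 0 := by
  have h1 : ((Fintype.card k : ℕ) : k) = 0 := FiniteField.cast_card_eq_zero k
  have h2 : ((Fintype.card k : ℕ) : F) = 0 := by
    rw [← map_natCast (algebraMap k F), h1, map_zero]
  rw [← map_natCast (algebraMap F (LS F)), h2, map_zero]

theorem star (h1 : S_C1) (h2 : S_I1) (ι : Fc →+* LS F) (Lam : k[X] → LS F) (hP : P.Monic)
    (hE : IsEmb k F Fc c Lam ι) (b : k[X]) :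
    ι (algebraMap k[X] Fc P) * Dx (Fintype.card k) (ι (c.lam b)) =
      - ι (aeval (c.lam b) (wp P)) := by
  obtain ⟨-, -, hadd, hmul, hbase, -⟩ := h2 k F
  obtain ⟨hc1, hc2, -, -, -⟩ := h1 k
  have hroot : aeval (c.lam b) (car P) = 0 := (c.roots _).2 ⟨b, rfl⟩
  rw [hc1 P, map_sum] at hroot
  simp only [map_mul, aeval_C, map_pow, aeval_X] at hroot
  have hι : ∑ i ∈ range (P.natDegree + 1),
      ι (algebraMap k[X] Fc (br P i)) * (ι (c.lam b)) ^ (Fintype.card k ^ i) = 0 := by
    have := congrArg ι hroot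
    rw [map_sum, map_zero] at this
    simpa only [map_mul, map_pow] using this
  have hdA : ∀ a : k[X], Dx (Fintype.card k) (ι (algebraMap k[X] Fc a)) =
      ι (algebraMap k[X] Fc (derivative a)) := by
    intro a
    rw [hE.base, hE.base]
    show Dx (Fintype.card k) (iF (Fintype.card k) (a.map (algebraMap k F))) =
      iF (Fintype.card k) ((derivative a).map (algebraMap k F))
    rw [hbase, derivative_map]
  have hd := congrArg (dh (Dx (Fintype.card k)) hadd) hι
  rw [map_sum, map_zero] at hd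
  have hterm : ∀ i, dh (Dx (Fintype.card k)) hadd
      (ι (algebraMap k[X] Fc (br P i)) * (ι (c.lam b)) ^ (Fintype.card k ^ i)) =
      ι (algebraMap k[X] Fc (br P i)) *
        ((((Fintype.card k ^ i : ℕ) : LS F) * (ι (c.lam b)) ^ (Fintype.card k ^ i - 1)) *
          Dx (Fintype.card k) (ι (c.lam b))) +
      ι (algebraMap k[X] Fc (derivative (br P i)) * (c.lam b) ^ (Fintype.card k ^ i)) := by
    intro i
    show Dx (Fintype.card k) (_ * _) = _
    rw [hmul, d_pow _ hmul, hdA, map_mul, map_pow]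
    ring
  rw [Finset.sum_congr rfl fun i _ => hterm i, Finset.sum_add_distrib, ← map_sum,
    Finset.sum_range_succ'] at hd
  have hz : ∑ i ∈ range P.natDegree, ι (algebraMap k[X] Fc (br P (i + 1))) *
        ((((Fintype.card k ^ (i + 1) : ℕ) : LS F) *
          (ι (c.lam b)) ^ (Fintype.card k ^ (i + 1) - 1)) *
          Dx (Fintype.card k) (ι (c.lam b))) = 0 := by
    refine Finset.sum_eq_zero fun i _ => ?_
    have : ((Fintype.card k ^ (i + 1) : ℕ) : LS F) = 0 := by
      rw [Nat.cast_pow, card_LS k F, zero_pow (Nat.succ_ne_zero i)]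
    rw [this]
    ring
  rw [hz, hc2 P] at hd
  have hw : aeval (c.lam b) (wp P) = ∑ i ∈ range (P.natDegree + 1),
      algebraMap k[X] Fc (derivative (br P i)) * (c.lam b) ^ (Fintype.card k ^ i) := by
    unfold wp
    rw [map_sum]
    simp only [map_mul, aeval_C, map_pow, aeval_X]
  rw [hw]
  simp only [pow_zero, Nat.cast_one, Nat.sub_self, one_mul, zero_add] at hd
  exact eq_neg_of_add_eq_zero_left hd

end

theorem der : S_C1 → S_I1 → S_OPG → S_DER := by
  intro h1 h2 h3 k F Fc _ _ _ _ _ _ _ _ _ _ P c Lam ι hP hI hfr hLam hE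
  have hst := star c h1 h2 ι Lam hP hE
  obtain ⟨-, -, hadd, hmul, hbase, -⟩ := h2 k F
  have hdA : ∀ a : k[X], Dx (Fintype.card k) (ι (algebraMap k[X] Fc a)) =
      ι (algebraMap k[X] Fc (derivative a)) := by
    intro a
    rw [hE.base, hE.base]
    show Dx (Fintype.card k) (iF (Fintype.card k) (a.map (algebraMap k F))) =
      iF (Fintype.card k) ((derivative a).map (algebraMap k F))
    rw [hbase, derivative_map]
  have hne : ∀ b : k[X], b ≠ 0 → algebraMap k[X] Fc b ≠ 0 := by
    intro b hb h0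
    exact hb (c.inj (h0.trans (map_zero _).symm))
  have hPne : algebraMap k[X] Fc P ≠ 0 := hne P hP.ne_zero
  have hιinj : Function.Injective ι := ι.injective
  have hS : ∀ y : Fc, ∃ z : Fc, ι z = Dx (Fintype.card k) (ι y) := by
    refine gen_ind c _ (fun a => ⟨_, (hdA a).symm⟩) ?_ ?_ ?_ ?_
    · refine ⟨-(aeval (c.lam 1) (wp P)) / algebraMap k[X] Fc P, ?_⟩
      have h4 := hst 1
      have h5 : ι (algebraMap k[X] Fc P) ≠ 0 := fun h0 => hPne (hιinj (h0.trans (map_zero _).symm))
      rw [map_div₀, map_neg, ← h4, mul_div_assoc, mul_comm, div_mul_cancel₀ _ h5]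
    · rintro x y ⟨z, hz⟩ ⟨z', hz'⟩
      exact ⟨z + z', by rw [map_add, map_add, hadd, hz, hz']⟩
    · rintro x y ⟨z, hz⟩ ⟨z', hz'⟩
      exact ⟨x * z' + y * z, by rw [map_mul, hmul, map_add, map_mul, map_mul, hz, hz']⟩
    · rintro b y hb ⟨z, hz⟩
      refine ⟨(z - y * algebraMap k[X] Fc (derivative b)) / algebraMap k[X] Fc b, ?_⟩
      have h5 : ι (algebraMap k[X] Fc b) ≠ 0 :=
        fun h0 => hne b hb (hιinj (h0.trans (map_zero _).symm))
      rw [map_mul, hmul, hdA] at hz
      rw [map_div₀, map_sub, hz, map_mul]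
      field_simp
      ring
  choose D hD using hS
  have Dadd : ∀ x y, D (x + y) = D x + D y := by
    intro x y
    apply hιinj
    rw [hD, map_add, hadd, map_add, hD, hD]
  have Dmul : ∀ x y, D (x * y) = x * D y + y * D x := by
    intro x y
    apply hιinj
    rw [hD, map_mul, hmul, map_add, map_mul, map_mul, hD, hD]
  have Dbase : ∀ a : k[X], D (algebraMap k[X] Fc a) = algebraMap k[X] Fc (derivative a) := by
    intro a
    apply hιinj
    rw [hD, hdA]
  have Dlam : ∀ b : k[X], algebraMap k[X] Fc P * D (c.lam b) = - aeval (c.lam b) (wp P) := by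
    intro b
    apply hιinj
    rw [map_mul, hD, hst b, map_neg]
  refine ⟨D, Dadd, Dmul, Dbase, hD, ?_, ?_⟩
  · intro a y ha
    revert y
    refine gen_ind c _ ?_ ?_ ?_ ?_ ?_
    · intro b
      rw [AlgEquiv.commutes, Dbase, AlgEquiv.commutes]
    · have e1 : c.sg a (c.lam 1) = c.lam a := by rw [c.sg_lam a 1 ha, mul_one]
      rw [e1]
      apply mul_left_cancel₀ hPne
      rw [Dlam a]
      have e2 : algebraMap k[X] Fc P * c.sg a (D (c.lam 1)) =
          c.sg a (algebraMap k[X] Fc P * D (c.lam 1)) := by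
        rw [map_mul, AlgEquiv.commutes]
      rw [e2, Dlam 1, map_neg]
      congr 1
      have e3 : c.sg a (aeval (c.lam 1) (wp P)) = aeval (c.sg a (c.lam 1)) (wp P) :=
        (Polynomial.aeval_algHom_apply (c.sg a : Fc →ₐ[k[X]] Fc) (c.lam 1) (wp P)).symm
      rw [e3, e1]
    · intro x y hx hy
      rw [map_add, Dadd, hx, hy, Dadd, map_add]
    · intro x y hx hy
      rw [map_mul, Dmul, hx, hy, Dmul, map_add, map_mul, map_mul]
    · intro b y hb hy
      rw [map_mul, Dmul, Dmul, map_add, map_mul, map_mul, AlgEquiv.commutes, Dbase,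
        AlgEquiv.commutes] at hy
      exact mul_left_cancel₀ (hne b hb) (add_right_cancel hy)
  · intro y hy
    have hO := h3 k Fc P c hP hI hfr
    rw [hO] at hy ⊢
    obtain ⟨n, f, hf⟩ := hy
    have hQ : ∀ f : (k[X])[X], ∃ g : (k[X])[X],
        algebraMap k[X] Fc P * D (aeval (c.lam 1) f) = aeval (c.lam 1) g := by
      intro f
      have := pol_ind (c.lam 1) (fun y => (∃ g : (k[X])[X], y = aeval (c.lam 1) g) ∧
        ∃ g : (k[X])[X], algebraMap k[X] Fc P * D y = aeval (c.lam 1) g) ?_ ?_ ?_ ?_ f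
      · exact this.2
      · intro a
        refine ⟨⟨C a, (aeval_C _ _).symm⟩, C (P * derivative a), ?_⟩
        rw [Dbase, aeval_C, map_mul]
      · refine ⟨⟨X, (aeval_X _).symm⟩, -wp P, ?_⟩
        rw [Dlam, map_neg]
      · rintro x y ⟨⟨g1, hg1⟩, g2, hg2⟩ ⟨⟨g3, hg3⟩, g4, hg4⟩
        refine ⟨⟨g1 + g3, ?_⟩, g2 + g4, ?_⟩
        · rw [hg1, hg3, map_add]
        · rw [Dadd, mul_add, hg2, hg4, map_add]
      · rintro x y ⟨⟨g1, hg1⟩, g2, hg2⟩ ⟨⟨g3, hg3⟩, g4, hg4⟩
        refine ⟨⟨g1 * g3, ?_⟩, g1 * g4 + g3 * g2, ?_⟩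
        · rw [hg1, hg3, map_mul]
        · rw [map_add, map_mul, map_mul, ← hg1, ← hg3, ← hg2, ← hg4, Dmul]
          ring
    obtain ⟨g, hg⟩ := hQ f
    refine ⟨2 * n + 1, C (P ^ n) * g - C (P * derivative (P ^ n)) * f, ?_⟩
    rw [← hf, Dmul, ← map_pow, Dbase] at hg
    rw [map_sub, map_mul, map_mul, ← hg, ← hf, aeval_C, aeval_C, map_mul, map_pow]
    ring

end Pool.Agent.W683.GK
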